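import Pool.Agent.W257.HL.A5
import Pool.Agent.K1H89.TS.T7

/-!
Hall-Lang for points whose real halves are defined over the anchor field of a totally split
polynomial: the quartic.
-/

set_option autoImplicit false

open Polynomial Finset IntermediateField

namespace Pool.Agent.K1H89.HL

open Pool.Agent.H322R2 Pool.Agent.Y910.S Pool.Agent.W257 Pool.Agent.W257.HL Pool.Agent.K1H89.TS

/-- the quartic polynomial of a form -/
noncomputable def f4 {R : Type} [CommRing R] (a b c d e : R) : R[X] :=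
  C a * X ^ 4 + C b * X ^ 3 + C c * X ^ 2 + C d * X + C e

/-- the monic quartic -/
noncomputable def g4 {R : Type} [CommRing R] (a b c d e : R) : R[X] :=
  X ^ 4 + C b * X ^ 3 + C (c * a) * X ^ 2 + C (d * a ^ 2) * X + C (e * a ^ 3)

lemma homog_f4 {R : Type} [CommRing R] (a b c d e : R) :
    homogenize (f4 a b c d e) 4 = Gf a b c d e := by
  apply homogenize_eq_of_isHomogeneous (Gf_isHom _ _ _ _ _)
  rw [Gf_aeval]
  unfold f4
  simp only [Polynomial.algebraMap_eq, one_pow, mul_one]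

lemma g4_monic {R : Type} [CommRing R] (a b c d e : R) : (g4 a b c d e).Monic := by
  unfold g4
  monicity!

lemma g4_nd {R : Type} [CommRing R] [Nontrivial R] (a b c d e : R) :
    (g4 a b c d e).natDegree = 4 := by
  unfold g4
  compute_degree!

lemma g4_map (a b c d e : ℤ) : (g4 a b c d e).map (Int.castRingHom ℚ)
    = g4 (a : ℚ) (b : ℚ) (c : ℚ) (d : ℚ) (e : ℚ) := by
  unfold g4
  simp

/-- the dehomogenised quartic is irreducible -/
lemma f4_irr {a b c d e : ℚ} (ha : a ≠ 0) (h : Irreducible (Gf a b c d e)) :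
    Irreducible (f4 a b c d e) := by
  have hnd : (f4 a b c d e).natDegree = 4 := by
    unfold f4
    compute_degree!
  rw [irreducible_iff]
  constructor
  · intro hu
    have := natDegree_eq_zero_of_isUnit hu
    omega
  · intro p q hpq
    have hp0 : p ≠ 0 := by
      rintro rfl
      rw [hpq, zero_mul, natDegree_zero] at hnd
      omega
    have hq0 : q ≠ 0 := by
      rintro rfl
      rw [hpq, mul_zero, natDegree_zero] at hnd
      omega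
    have h1 : p.natDegree + q.natDegree = 4 := by rw [← natDegree_mul hp0 hq0, ← hpq, hnd]
    have h2 := homogenize_mul p q (le_refl p.natDegree) (le_refl q.natDegree)
    rw [h1, ← hpq, homog_f4] at h2
    have h3 : ∀ (s : ℚ[X]), IsUnit (homogenize s s.natDegree) → IsUnit s := by
      intro s hs
      have h4 := hs.map (MvPolynomial.aeval ![(X : ℚ[X]), 1] : MvPolynomial (Fin 2) ℚ →ₐ[ℚ] ℚ[X])
      rwa [aeval_homogenize_X_one s le_rfl] at h4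
    rcases (irreducible_iff.1 h).2 h2 with h5 | h5
    · exact Or.inl (h3 p h5)
    · exact Or.inr (h3 q h5)

/-- the monic quartic is irreducible -/
lemma g4_irr {a b c d e : ℚ} (ha : a ≠ 0) (h : Irreducible (Gf a b c d e)) :
    Irreducible (g4 a b c d e) := by
  rw [← irr_comp ha]
  have h1 : (g4 a b c d e).comp (C a * X) = C (a ^ 3) * f4 a b c d e := by
    unfold g4 f4
    simp only [add_comp, mul_comp, C_comp, X_comp, pow_comp, C_mul, C_pow]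
    ring
  rw [h1, irreducible_isUnit_mul]
  · exact f4_irr ha h
  · rw [isUnit_C, isUnit_iff_ne_zero]
    exact pow_ne_zero _ ha

lemma g4_coeff {R : Type} [CommRing R] (a b c d e : R) :
    (g4 a b c d e).coeff 0 = e * a ^ 3 ∧ (g4 a b c d e).coeff 1 = d * a ^ 2 ∧
    (g4 a b c d e).coeff 2 = c * a ∧ (g4 a b c d e).coeff 3 = b ∧
    (g4 a b c d e).coeff 4 = 1 := by
  unfold g4
  refine ⟨?_, ?_, ?_, ?_, ?_⟩ <;>
    simp [coeff_X, coeff_C, coeff_X_pow, coeff_add, coeff_C_mul, -map_mul, -map_pow]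

lemma g4_sum (a b c d e X Y : ℤ) :
    ∑ l ∈ range (4 + 1), (g4 a b c d e).coeff l * X ^ (1 * l) * Y ^ (1 * (4 - l))
      = X ^ 4 + b * X ^ 3 * Y + c * a * X ^ 2 * Y ^ 2 + d * a ^ 2 * X * Y ^ 3
        + e * a ^ 3 * Y ^ 4 := by
  obtain ⟨h0, h1, h2, h3, h4⟩ := g4_coeff a b c d e
  simp only [Finset.sum_range_succ, Finset.sum_range_zero, h0, h1, h2, h3, h4]
  ring

lemma g4_pn {a b c d e : ℤ} {N : ℝ} (hN : 1 ≤ N) (ha : |(a : ℝ)| ≤ N) (hb : |(b : ℝ)| ≤ N)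
    (hc : |(c : ℝ)| ≤ N) (hd : |(d : ℝ)| ≤ N) (he : |(e : ℝ)| ≤ N) :
    pn zn (g4 a b c d e) ≤ 5 * N ^ 4 := by
  obtain ⟨h0, h1, h2, h3, h4⟩ := g4_coeff a b c d e
  rw [pn_eq_range zn _ (show (g4 a b c d e).natDegree < 5 by rw [g4_nd]; omega)]
  simp only [Finset.sum_range_succ, Finset.sum_range_zero, h0, h1, h2, h3, h4, zn_apply]
  push_cast
  rw [abs_mul, abs_mul, abs_mul, abs_pow, abs_pow, abs_one]
  have hN0 : 0 ≤ N := by linarith
  have e1 : |(e : ℝ)| * |(a : ℝ)| ^ 3 ≤ N ^ 4 := by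
    calc |(e : ℝ)| * |(a : ℝ)| ^ 3 ≤ N * N ^ 3 := by gcongr
      _ = N ^ 4 := by ring
  have e2 : |(d : ℝ)| * |(a : ℝ)| ^ 2 ≤ N ^ 4 := by
    calc |(d : ℝ)| * |(a : ℝ)| ^ 2 ≤ N * N ^ 2 := by gcongr
      _ = N ^ 3 := by ring
      _ ≤ N ^ 4 := pow_le_pow_right₀ hN (by norm_num)
  have e3 : |(c : ℝ)| * |(a : ℝ)| ≤ N ^ 4 := by
    calc |(c : ℝ)| * |(a : ℝ)| ≤ N * N := by gcongr
      _ = N ^ 2 := by ring
      _ ≤ N ^ 4 := pow_le_pow_right₀ hN (by norm_num)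
  have e4 : |(b : ℝ)| ≤ N ^ 4 := hb.trans (le_self_pow₀ hN (by norm_num))
  have e5 : 1 ≤ N ^ 4 := one_le_pow₀ hN
  linarith

/-- the roots of the monic quartic generate the fields of the halves -/
lemma root_field {A x y u₁ v₁ u₂ v₂ : ℤ} (h : u₁ * v₂ - u₂ * v₁ = 1)
    (ha : gq A x y u₁ v₁ ≠ 0) (he : gq A x y u₂ v₂ ≠ 0)
    (η : ℝ) (hη : evf η (g4 (gq A x y u₁ v₁) (cb A x y u₁ v₁ u₂ v₂)
      (cc A x y u₁ v₁ u₂ v₂) (cb A x y u₂ v₂ u₁ v₁) (gq A x y u₂ v₂)) = 0) :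
    ∃ l : ℝ, l ^ 4 - 6 * x * l ^ 2 + 8 * y * l - (3 * x ^ 2 + 4 * A) = 0 ∧ ℚ⟮η⟯ = ℚ⟮l⟯ := by
  obtain ⟨a, haa⟩ : ∃ a, a = gq A x y u₁ v₁ := ⟨_, rfl⟩
  obtain ⟨b, hb⟩ : ∃ b, b = cb A x y u₁ v₁ u₂ v₂ := ⟨_, rfl⟩
  obtain ⟨c, hc⟩ : ∃ c, c = cc A x y u₁ v₁ u₂ v₂ := ⟨_, rfl⟩
  obtain ⟨d, hd⟩ : ∃ d, d = cb A x y u₂ v₂ u₁ v₁ := ⟨_, rfl⟩
  obtain ⟨e, hee⟩ : ∃ e, e = gq A x y u₂ v₂ := ⟨_, rfl⟩
  have hsl := slope_mem (A := A) (x := x) (y := y) h ⊤ (fun l _ => mem_top)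
  rw [← haa, ← hb, ← hc, ← hd, ← hee] at hη hsl
  rw [← haa] at ha
  rw [← hee] at he
  have haR : (a : ℝ) ≠ 0 := by exact_mod_cast ha
  have heR : (e : ℝ) ≠ 0 := by exact_mod_cast he
  have h1 : η ^ 4 + b * η ^ 3 + c * a * η ^ 2 + d * a ^ 2 * η + e * a ^ 3 = 0 := by
    rw [← hη]
    unfold g4
    simp only [map_add, map_mul, map_pow, evf_X, evf_C, eq_intCast, map_intCast]
  have hη0 : η ≠ 0 := by
    rintro rfl
    have h2 : (e : ℝ) * a ^ 3 = 0 := by linear_combination h1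
    rcases mul_eq_zero.1 h2 with h3 | h3
    · exact heR h3
    · exact pow_ne_zero 3 haR h3
  have ht : MvPolynomial.aeval ![1, (a : ℝ) / η] (Gf a b c d e) = 0 := by
    rw [Gf_aeval]
    simp only [algebraMap_int_eq, eq_intCast]
    field_simp
    linear_combination (a : ℝ) * h1
  obtain ⟨t, htt⟩ : ∃ t, t = (a : ℝ) / η := ⟨_, rfl⟩
  rw [← htt] at ht
  have h4 : η = a / t := by rw [htt]; field_simp
  obtain ⟨l, -, hl, q1, q2, q3, q4⟩ := hsl t ht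
  refine ⟨l, hl, le_antisymm ?_ ?_⟩
  · rw [adjoin_simple_le_iff]
    have ht2 := mem_adjoin_simple_self ℚ l
    have h5 : t = (l * v₁ - u₁) / (u₂ - l * v₂) := by
      rw [eq_div_iff q3, q2]
    rw [h4, h5]
    exact (ℚ⟮l⟯).div_mem (intCast_mem _ a) ((ℚ⟮l⟯).div_mem ((ℚ⟮l⟯).sub_mem
      ((ℚ⟮l⟯).mul_mem ht2 (intCast_mem _ v₁)) (intCast_mem _ u₁))
      ((ℚ⟮l⟯).sub_mem (intCast_mem _ u₂) ((ℚ⟮l⟯).mul_mem ht2 (intCast_mem _ v₂))))
  · rw [adjoin_simple_le_iff]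
    have ht2 : t ∈ ℚ⟮η⟯ := by
      rw [htt]
      exact (ℚ⟮η⟯).div_mem (intCast_mem _ a) (mem_adjoin_simple_self ℚ η)
    have h5 : l = (u₁ + u₂ * t) / (v₁ + v₂ * t) := by
      rw [eq_div_iff q4, q1]
    rw [h5]
    exact (ℚ⟮η⟯).div_mem ((ℚ⟮η⟯).add_mem (intCast_mem _ u₁) ((ℚ⟮η⟯).mul_mem (intCast_mem _ u₂) ht2))
      ((ℚ⟮η⟯).add_mem (intCast_mem _ v₁) ((ℚ⟮η⟯).mul_mem (intCast_mem _ v₂) ht2))

end Pool.Agent.K1H89.HL
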