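import Pool.Agent.K1H89.HL.E1
import Pool.Agent.W257.HL.Stm2

/-!
Hall-Lang for points whose real halves are defined over an anchor field: the bound.
-/

set_option autoImplicit false

open Polynomial Finset IntermediateField

namespace Pool.Agent.K1H89.HL

open Pool.Agent.H322R2 Pool.Agent.Y910.S Pool.Agent.Y910.A Pool.Agent.W257 Pool.Agent.W257.HL
  Pool.Agent.K1H89.TS

lemma gq_ne {A x y u v : ℤ} (hirr : Irreducible (gp A x y)) (h : u ≠ 0 ∨ v ≠ 0) :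
    gq A x y u v ≠ 0 := by
  by_cases hv : v = 0
  · subst hv
    have hu : u ≠ 0 := by tauto
    unfold gq
    have : u ^ 4 - 6 * x * u ^ 2 * 0 ^ 2 + 8 * y * u * 0 ^ 3 - (3 * x ^ 2 + 4 * A) * 0 ^ 4
        = u ^ 4 := by ring
    rw [this]
    exact pow_ne_zero _ hu
  · exact no_root hirr u v hv

lemma abs_le_of_natAbs {z : ℤ} {n : ℕ} (h : z.natAbs ≤ n) : |(z : ℝ)| ≤ n := by
  have h1 : ((z.natAbs : ℕ) : ℝ) = |(z : ℝ)| := by rw [Nat.cast_natAbs, Int.cast_abs]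
  rw [← h1]
  exact_mod_cast h

/-- the bound for `x`, irreducible quartic -/
theorem irr_case (hR : S_RED2) (R e w : ℕ) : ∃ K D : ℕ, 1 ≤ K ∧ 1 ≤ D ∧
    ∀ {B A : ℝ} {K₁ : IntermediateField ℚ ℝ}, AncW R e w B A K₁ → B ^ K ≤ A →
    ∀ a b x y : ℤ, ∀ H : ℕ, H = max a.natAbs b.natAbs → 1 ≤ H →
      y ^ 2 = x ^ 3 + a * x + b → 0 ≤ y → (H : ℤ) ≤ x → Irreducible (gp a x y) →
      (∀ l : ℝ, l ^ 4 - 6 * x * l ^ 2 + 8 * y * l - (3 * x ^ 2 + 4 * a) = 0 →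
        3 ≤ Module.finrank ℚ ↥(ℚ⟮l⟯ ⊓ K₁)) →
      ((x.natAbs : ℕ) : ℝ) ≤ (D * A * H) ^ (32 * K + 1) := by
  obtain ⟨C, hC⟩ := hR
  obtain ⟨K, hK1, hK⟩ := ancW_eq R e w 4 1 1 (by norm_num) (le_refl _) (le_refl _)
    (Nat.coprime_one_left 1)
  refine ⟨K, 8 * C + 1, hK1, by omega, ?_⟩
  intro B A K₁ hanc hBA a b x y H hH hH1 hxy hy hHx hirr hroots
  obtain ⟨u₁, v₁, u₂, v₂, hdet, ha, hb, hc, hd, he, hx, -⟩ :=
    hC a b x y H hH hH1 hxy hy hHx (fun u v hv => no_root hirr u v hv)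
  have ha0 : gq a x y u₁ v₁ ≠ 0 := by
    apply gq_ne hirr
    by_contra hcon
    push Not at hcon
    rw [hcon.1, hcon.2] at hdet
    norm_num at hdet
  have he0 : gq a x y u₂ v₂ ≠ 0 := by
    apply gq_ne hirr
    by_contra hcon
    push Not at hcon
    rw [hcon.1, hcon.2] at hdet
    norm_num at hdet
  have hG := irr_Gf hirr hdet
  have hmem := root_field (A := a) (x := x) (y := y) hdet ha0 he0
  have hval : gq a x y u₁ v₁ * v₂ ^ 4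
          + cb a x y u₁ v₁ u₂ v₂ * (v₂ ^ 3 * -v₁) + cc a x y u₁ v₁ u₂ v₂ * (v₂ ^ 2 * (-v₁) ^ 2)
          + cb a x y u₂ v₂ u₁ v₁ * (v₂ * (-v₁) ^ 3) + gq a x y u₂ v₂ * (-v₁) ^ 4 = 1 := by
    have h3 := gq_subst a x y u₁ v₁ u₂ v₂ v₂ (-v₁)
    have h4 : u₁ * v₂ + u₂ * (-v₁) = 1 := by linarith
    have h5 : v₁ * v₂ + v₂ * (-v₁) = 0 := by ring
    rw [h4, h5] at h3
    have h6 : gq a x y 1 0 = 1 := by unfold gq; ring
    rw [h6] at h3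
    linear_combination -h3
  obtain ⟨a1, haa⟩ : ∃ a1, a1 = gq a x y u₁ v₁ := ⟨_, rfl⟩
  obtain ⟨b1, hbb⟩ : ∃ b1, b1 = cb a x y u₁ v₁ u₂ v₂ := ⟨_, rfl⟩
  obtain ⟨c1, hcc⟩ : ∃ c1, c1 = cc a x y u₁ v₁ u₂ v₂ := ⟨_, rfl⟩
  obtain ⟨d1, hdd⟩ : ∃ d1, d1 = cb a x y u₂ v₂ u₁ v₁ := ⟨_, rfl⟩
  obtain ⟨e1, hee⟩ : ∃ e1, e1 = gq a x y u₂ v₂ := ⟨_, rfl⟩
  rw [← haa, ← hbb, ← hcc, ← hdd, ← hee] at hG hmem hval
  rw [← haa] at ha ha0
  rw [← hbb] at hb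
  rw [← hcc] at hc
  rw [← hdd] at hd
  rw [← hee] at he he0
  rw [Gf_map] at hG
  have hirrg : Irreducible ((g4 a1 b1 c1 d1 e1).map (Int.castRingHom ℚ)) := by
    rw [g4_map]
    exact g4_irr (by exact_mod_cast ha0) hG
  have hgm := g4_monic a1 b1 c1 d1 e1
  have hgd := g4_nd a1 b1 c1 d1 e1
  have hη : ∀ η : ℝ, evf η (g4 a1 b1 c1 d1 e1) = 0 →
      3 ≤ Module.finrank ℚ ↥(ℚ⟮η⟯ ⊓ K₁) := by
    intro η hη
    obtain ⟨l, h1, h2⟩ := hmem η hη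
    rw [h2]
    exact hroots l h1
  have hsum : ∑ l ∈ range (4 + 1), (g4 a1 b1 c1 d1 e1).coeff l * (a1 * v₂) ^ (1 * l)
      * (-v₁) ^ (1 * (4 - l)) = MvPolynomial.eval ![a1 * v₂, -v₁] (MvPolynomial.C (a1 ^ 3)) := by
    rw [g4_sum, MvPolynomial.eval_C]
    linear_combination a1 ^ 3 * hval
  have hres := hK hanc hBA (g4 a1 b1 c1 d1 e1) hgm hgd hirrg hη (MvPolynomial.C (a1 ^ 3)) (by
    intro n hn
    have h1 : n = 0 := by
      rw [MvPolynomial.mem_support_iff, MvPolynomial.coeff_C] at hn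
      by_contra h2
      exact hn (if_neg fun h => h2 h.symm)
    rw [h1]
    simp) (a1 * v₂) (-v₁) hsum
  have hB := hanc.two_le
  have hA1 : 1 ≤ A := (one_le_pow₀ (by linarith)).trans hBA
  obtain ⟨N, hN⟩ : ∃ N : ℝ, N = ((C * H ^ 2 : ℕ) : ℝ) := ⟨_, rfl⟩
  have ha' : |(a1 : ℝ)| ≤ N := by rw [hN]; exact abs_le_of_natAbs ha
  have hb' : |(b1 : ℝ)| ≤ N := by rw [hN]; exact abs_le_of_natAbs hb
  have hc' : |(c1 : ℝ)| ≤ N := by rw [hN]; exact abs_le_of_natAbs hc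
  have hd' : |(d1 : ℝ)| ≤ N := by rw [hN]; exact abs_le_of_natAbs hd
  have he' : |(e1 : ℝ)| ≤ N := by rw [hN]; exact abs_le_of_natAbs he
  have ha1 : (1 : ℝ) ≤ |(a1 : ℝ)| := by exact_mod_cast Int.one_le_abs ha0
  have hN1 : 1 ≤ N := ha1.trans ha'
  have hpn := g4_pn hN1 ha' hb' hc' hd' he'
  have hlenP : ((H322R2.len (MvPolynomial.C (a1 ^ 3) : MvPolynomial (Fin 2) ℤ) : ℕ) : ℝ)
      ≤ N ^ 4 := by
    have h1 : H322R2.len (MvPolynomial.C (a1 ^ 3) : MvPolynomial (Fin 2) ℤ)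
        ≤ (a1 ^ 3).natAbs := len_C _
    have h2 : (((a1 ^ 3).natAbs : ℕ) : ℝ) = |(a1 : ℝ)| ^ 3 := by
      rw [Nat.cast_natAbs, Int.cast_abs, Int.cast_pow, abs_pow]
    calc ((H322R2.len (MvPolynomial.C (a1 ^ 3) : MvPolynomial (Fin 2) ℤ) : ℕ) : ℝ)
        ≤ (((a1 ^ 3).natAbs : ℕ) : ℝ) := by exact_mod_cast h1
      _ = |(a1 : ℝ)| ^ 3 := h2
      _ ≤ N ^ 3 := by gcongr
      _ ≤ N ^ 4 := pow_le_pow_right₀ hN1 (by norm_num)
  have hN4 : 1 ≤ N ^ 4 := one_le_pow₀ hN1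
  obtain ⟨T, hT⟩ : ∃ T : ℝ, T = A * (2 + (pn zn (g4 a1 b1 c1 d1 e1)
    + ((H322R2.len (MvPolynomial.C (a1 ^ 3) : MvPolynomial (Fin 2) ℤ) : ℕ) : ℝ))) := ⟨_, rfl⟩
  rw [← hT] at hres
  have hT1 : T ≤ A * (8 * N ^ 4) := by
    rw [hT]
    apply mul_le_mul_of_nonneg_left _ (by linarith)
    linarith
  have hT0 : 0 ≤ T := by
    rw [hT]
    have : 0 ≤ pn zn (g4 a1 b1 c1 d1 e1) := apply_nonneg _ _
    positivity
  have hHR : (1 : ℝ) ≤ H := by exact_mod_cast hH1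
  have hCR : (0 : ℝ) ≤ C := Nat.cast_nonneg _
  obtain ⟨Z, hZ⟩ : ∃ Z : ℝ, Z = ((8 * C + 1 : ℕ) : ℝ) * A * H := ⟨_, rfl⟩
  rw [← hZ]
  have hZH : (8 * (C : ℝ) + 1) * H ≤ Z := by
    rw [hZ]
    push_cast
    have h1 : (8 * (C : ℝ) + 1) * 1 ≤ (8 * (C : ℝ) + 1) * A :=
      mul_le_mul_of_nonneg_left hA1 (by positivity)
    rw [mul_one] at h1
    exact mul_le_mul_of_nonneg_right h1 (by positivity)
  have hAZ : A ≤ Z := by
    rw [hZ]
    push_cast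
    have h1 : 1 * A ≤ (8 * (C : ℝ) + 1) * A := mul_le_mul_of_nonneg_right (by linarith) (by linarith)
    have h2 : (8 * (C : ℝ) + 1) * A * 1 ≤ (8 * (C : ℝ) + 1) * A * H :=
      mul_le_mul_of_nonneg_left hHR (by positivity)
    linarith
  have hZ1 : 1 ≤ Z := hA1.trans hAZ
  have hC1 : (1 : ℝ) ≤ C := by
    have h1 : 1 ≤ C * H ^ 2 := by
      have : (1 : ℝ) ≤ ((C * H ^ 2 : ℕ) : ℝ) := by rw [← hN]; exact hN1
      exact_mod_cast this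
    have h2 : C ≠ 0 := by
      rintro rfl
      omega
    exact_mod_cast Nat.one_le_iff_ne_zero.2 h2
  have hTZ : T ≤ Z ^ 8 := by
    have h1 : A * (8 * N ^ 4) ≤ Z ^ 8 := by
      have h2 : Z ^ 8 = ((8 * C + 1 : ℕ) : ℝ) ^ 8 * A ^ 8 * H ^ 8 := by rw [hZ]; ring
      have h3 : A * (8 * N ^ 4) = (8 * (C : ℝ) ^ 4) * A * H ^ 8 := by
        rw [hN]
        push_cast
        ring
      rw [h2, h3]
      have h4 : 8 * (C : ℝ) ^ 4 ≤ ((8 * C + 1 : ℕ) : ℝ) ^ 8 := by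
        push_cast
        calc 8 * (C : ℝ) ^ 4 ≤ (8 * (C : ℝ)) ^ 4 := by nlinarith [pow_pos (by linarith : (0 : ℝ) < C) 4]
          _ ≤ (8 * (C : ℝ) + 1) ^ 4 := by gcongr; linarith
          _ ≤ (8 * (C : ℝ) + 1) ^ 8 := pow_le_pow_right₀ (by linarith) (by norm_num)
      have h5 : A ≤ A ^ 8 := le_self_pow₀ hA1 (by norm_num)
      gcongr
    exact hT1.trans h1
  have hmax : (((max v₁.natAbs v₂.natAbs : ℕ)) : ℝ) ≤ (Z ^ 8) ^ K := by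
    have h1 : T ^ K ≤ (Z ^ 8) ^ K := pow_le_pow_left₀ hT0 hTZ _
    have h2 : |(v₁ : ℝ)| ≤ T ^ K := by
      have := hres.2
      push_cast at this
      rwa [abs_neg] at this
    have h3 : |(v₂ : ℝ)| ≤ T ^ K := by
      have h4 := hres.1
      push_cast at h4
      rw [abs_mul] at h4
      have h5 : 1 * |(v₂ : ℝ)| ≤ |(a1 : ℝ)| * |(v₂ : ℝ)| :=
        mul_le_mul_of_nonneg_right ha1 (abs_nonneg _)
      linarith
    rw [Nat.cast_max]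
    apply max_le
    · rw [Nat.cast_natAbs, Int.cast_abs]
      exact h2.trans h1
    · rw [Nat.cast_natAbs, Int.cast_abs]
      exact h3.trans h1
  have hxR : ((x.natAbs : ℕ) : ℝ) ≤ C * H * (((max v₁.natAbs v₂.natAbs : ℕ)) : ℝ) ^ 4 := by
    exact_mod_cast hx
  calc ((x.natAbs : ℕ) : ℝ) ≤ C * H * (((max v₁.natAbs v₂.natAbs : ℕ)) : ℝ) ^ 4 := hxR
    _ ≤ Z * ((Z ^ 8) ^ K) ^ 4 := by
        apply mul_le_mul _ (pow_le_pow_left₀ (Nat.cast_nonneg _) hmax _) (by positivity)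
          (by linarith)
        refine le_trans ?_ hZH
        apply mul_le_mul_of_nonneg_right _ (by positivity)
        linarith
    _ = Z ^ (32 * K + 1) := by
        rw [← pow_mul, ← pow_mul, pow_succ, mul_comm]
        congr 2
        ring

/-- the bound for `x` -/
theorem x_case (hR : S_RED2) (hL : S_LIN) (hQ : S_QUAD) (R e w : ℕ) :
    ∃ K D : ℕ, 1 ≤ K ∧ 1 ≤ D ∧
    ∀ {B : ℝ} {A : ℕ} {K₁ : IntermediateField ℚ ℝ}, AncW R e w B (A : ℝ) K₁ → B ^ K ≤ A →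
    ∀ a b x y : ℤ, 4 * a ^ 3 + 27 * b ^ 2 ≠ 0 → y ^ 2 = x ^ 3 + a * x + b →
      (∀ l : ℝ, l ^ 4 - 6 * x * l ^ 2 + 8 * y * l - (3 * x ^ 2 + 4 * a) = 0 →
        3 ≤ Module.finrank ℚ ↥(ℚ⟮l⟯ ⊓ K₁)) →
      x.natAbs ≤ (D * A * max a.natAbs b.natAbs) ^ (32 * K + 20) := by
  obtain ⟨K, D, hK1, hD1, hK⟩ := irr_case hR R e w
  obtain ⟨c2, hc2⟩ := hL
  obtain ⟨c3, hc3⟩ := hQ
  refine ⟨K, 2 + D + c2 + c3, hK1, by omega, ?_⟩
  obtain ⟨E, hE⟩ : ∃ E, E = 2 + D + c2 + c3 := ⟨_, rfl⟩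
  rw [← hE]
  intro B A K₁ hanc hBA a b x y hdisc hcur hroots
  have hB := hanc.two_le
  have hA1 : 1 ≤ A := by
    have h1 : (1 : ℝ) ≤ (A : ℝ) := (one_le_pow₀ (by linarith)).trans hBA
    exact_mod_cast h1
  have h1 := H_pos hdisc
  obtain ⟨H, hH⟩ : ∃ H : ℕ, H = max a.natAbs b.natAbs := ⟨_, rfl⟩
  rw [← hH] at h1 ⊢
  have hpos : 1 ≤ E * A * H := Nat.mul_pos (Nat.mul_pos (by omega) hA1) h1
  have key : ∀ (c k : ℕ), c ≤ E → 1 ≤ k → k ≤ 32 * K + 20 → x.natAbs ≤ c * H ^ k →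
      x.natAbs ≤ (E * A * H) ^ (32 * K + 20) := by
    intro c k hc hk1 hk h
    calc x.natAbs ≤ c * H ^ k := h
      _ ≤ E ^ k * H ^ k := by
          apply Nat.mul_le_mul_right
          exact hc.trans (Nat.le_self_pow (by omega) _)
      _ = (E * H) ^ k := by rw [mul_pow]
      _ ≤ (E * A * H) ^ k := by
          apply Nat.pow_le_pow_left
          apply Nat.mul_le_mul_right
          exact Nat.le_mul_of_pos_right _ hA1
      _ ≤ _ := Nat.pow_le_pow_right hpos hk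
  have key2 : ((x.natAbs : ℕ) : ℝ) ≤ (D * A * H) ^ (32 * K + 1) →
      x.natAbs ≤ (E * A * H) ^ (32 * K + 20) := by
    intro h
    have h2 : x.natAbs ≤ (D * A * H) ^ (32 * K + 1) := by exact_mod_cast h
    calc x.natAbs ≤ (D * A * H) ^ (32 * K + 1) := h2
      _ ≤ (E * A * H) ^ (32 * K + 1) := by
          apply Nat.pow_le_pow_left
          apply Nat.mul_le_mul_right
          apply Nat.mul_le_mul_right
          omega
      _ ≤ _ := Nat.pow_le_pow_right hpos (by omega)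
  by_cases hx : (H : ℤ) ≤ x
  · rcases classify a x y with hirr | ⟨l, hl⟩ | ⟨s, m, n, e1, e2, e3⟩
    · by_cases hy : 0 ≤ y
      · exact key2 (hK hanc hBA a b x y H hH h1 hcur hy hx hirr hroots)
      · refine key2 (hK hanc hBA a b x (-y) H hH h1 (by rw [neg_sq]; exact hcur) (by omega) hx
          (irr_neg hirr) ?_)
        intro l hl
        have h2 := hroots (-l) (by
          push_cast at hl
          linear_combination hl)
        have h3 : ℚ⟮-l⟯ = ℚ⟮l⟯ := by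
          apply le_antisymm
          · exact adjoin_simple_le_iff.2 ((ℚ⟮l⟯).neg_mem (mem_adjoin_simple_self ℚ l))
          · rw [adjoin_simple_le_iff]
            have h4 := (ℚ⟮-l⟯).neg_mem (mem_adjoin_simple_self ℚ (-l))
            rwa [neg_neg] at h4
        rwa [h3] at h2
    · exact key c2 20 (by omega) (by omega) (by omega) (hH ▸ hc2 a b x y l hdisc hcur hl)
    · exact key c3 20 (by omega) (by omega) (by omega) (hH ▸ hc3 a b x y s m n hdisc hcur e1 e2 e3)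
  · have h2 := lower_x hH h1 hcur
    refine key 2 1 (by omega) (by omega) (by omega) ?_
    rw [pow_one]
    omega

/-- the bound for both coordinates -/
theorem xy_case (hR : S_RED2) (hL : S_LIN) (hQ : S_QUAD) (R e w : ℕ) :
    ∃ K D : ℕ, 1 ≤ K ∧ 2 ≤ D ∧
    ∀ {B : ℝ} {A : ℕ} {K₁ : IntermediateField ℚ ℝ}, AncW R e w B (A : ℝ) K₁ → B ^ K ≤ A →
    ∀ a b x y : ℤ, 4 * a ^ 3 + 27 * b ^ 2 ≠ 0 → y ^ 2 = x ^ 3 + a * x + b →
      (∀ l : ℝ, l ^ 4 - 6 * x * l ^ 2 + 8 * y * l - (3 * x ^ 2 + 4 * a) = 0 →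
        3 ≤ Module.finrank ℚ ↥(ℚ⟮l⟯ ⊓ K₁)) →
      max x.natAbs y.natAbs ≤ (A * max a.natAbs b.natAbs) ^ D := by
  obtain ⟨K, D, hK1, hD1, hK⟩ := x_case hR hL hQ R e w
  obtain ⟨N, hN⟩ : ∃ N, N = (32 * K + 20) * 2 + 1 := ⟨_, rfl⟩
  refine ⟨K, (D + 2) * N, hK1, by nlinarith, ?_⟩
  intro B A K₁ hanc hBA a b x y hdisc hcur hroots
  have hB := hanc.two_le
  have hA2 : 2 ≤ A := by
    have h1 : (2 : ℝ) ≤ (A : ℝ) := by
      calc (2 : ℝ) ≤ B := hB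
        _ ≤ B ^ K := le_self_pow₀ (by linarith) (by omega)
        _ ≤ A := hBA
    exact_mod_cast h1
  have hx := hK hanc hBA a b x y hdisc hcur hroots
  have h1 := H_pos hdisc
  obtain ⟨H, hH⟩ : ∃ H : ℕ, H = max a.natAbs b.natAbs := ⟨_, rfl⟩
  rw [← hH] at h1 hx ⊢
  obtain ⟨W, hW⟩ : ∃ W, W = (D + 1) * A * H := ⟨_, rfl⟩
  have hW2 : 2 ≤ W := by
    rw [hW]
    calc 2 = 1 * 2 * 1 := by norm_num
      _ ≤ (D + 1) * A * H := Nat.mul_le_mul (Nat.mul_le_mul (by omega) hA2) h1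
  have hHW : H ≤ W ^ (32 * K + 20) := by
    refine le_trans ?_ (Nat.le_self_pow (by omega) W)
    rw [hW]
    calc H = 1 * 1 * H := by ring
      _ ≤ (D + 1) * A * H := Nat.mul_le_mul_right _ (Nat.mul_le_mul (by omega) (by omega))
  have hx2 : x.natAbs ≤ W ^ (32 * K + 20) := by
    refine hx.trans (Nat.pow_le_pow_left ?_ _)
    rw [hW]
    exact Nat.mul_le_mul_right _ (Nat.mul_le_mul_right _ (by omega))
  have hy := y_of_x hcur hx2 (hH ▸ hHW)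
  have h2 : 2 * (W ^ (32 * K + 20)) ^ 2 ≤ W ^ N := by
    calc 2 * (W ^ (32 * K + 20)) ^ 2 ≤ W * (W ^ (32 * K + 20)) ^ 2 := Nat.mul_le_mul_right _ hW2
      _ = W ^ N := by rw [← pow_mul, hN, pow_succ, mul_comm]
  have h3 : W ^ N ≤ (A * H) ^ ((D + 2) * N) := by
    rw [pow_mul]
    apply Nat.pow_le_pow_left
    rw [hW]
    have h4 : D + 1 ≤ A ^ (D + 1) := by
      calc D + 1 ≤ 2 ^ (D + 1) := Nat.lt_two_pow_self.le
        _ ≤ A ^ (D + 1) := Nat.pow_le_pow_left hA2 _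
    calc (D + 1) * A * H ≤ A ^ (D + 1) * A * H :=
          Nat.mul_le_mul_right _ (Nat.mul_le_mul_right _ h4)
      _ = A ^ (D + 2) * H := by rw [← pow_succ]
      _ ≤ A ^ (D + 2) * H ^ (D + 2) := Nat.mul_le_mul_left _ (Nat.le_self_pow (by omega) _)
      _ = (A * H) ^ (D + 2) := by rw [mul_pow]
  refine (max_le (hx2.trans ?_) (hy.trans h2)).trans h3
  exact Nat.pow_le_pow_right (by omega) (by omega)

end Pool.Agent.K1H89.HL
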